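import Pool.Agent.V5helper63.NP.Stm

set_option autoImplicit false

/-! # Project NP, job CA -/

namespace Pool.Agent.V5helper38.NP

open Pool.Agent.V5helper63.NP

/-- `b = 0`, `d ≥ 1` is impossible -/
theorem mixed {k m p a c d : ℕ} (hp : p.Prime) (hp3 : 3 ≤ p) (ha : a ≤ k)
    (hN2 : (2 : ℤ) ^ (k + 1) < 2 * p) (hNP : (p : ℤ) < 2 ^ (k + 1))
    (hE : (p : ℤ) * p ^ (m - 1) * (2 ^ (k + 1) - p) - (2 ^ (k + 1) - 1) =
      ((p : ℤ) - 1) * (2 ^ a + 2 ^ c * ((p : ℤ) ^ d * p))) : False := by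
  obtain ⟨P, hP⟩ : ∃ P : ℤ, P = p := ⟨_, rfl⟩
  obtain ⟨N, hN⟩ : ∃ N : ℤ, N = 2 ^ (k + 1) := ⟨_, rfl⟩
  obtain ⟨A, hA⟩ : ∃ A : ℤ, A = 2 ^ a := ⟨_, rfl⟩
  obtain ⟨C, hC⟩ : ∃ C : ℤ, C = 2 ^ c := ⟨_, rfl⟩
  obtain ⟨q, hq⟩ : ∃ q : ℤ, q = P ^ (m - 1) := ⟨_, rfl⟩
  obtain ⟨D, hD⟩ : ∃ D : ℤ, D = P ^ d := ⟨_, rfl⟩
  rw [← hP, ← hN] at hN2 hNP hE
  rw [← hA, ← hC, ← hq, ← hD] at hE
  have hP3 : 3 ≤ P := by rw [hP]; exact_mod_cast hp3
  have hA1 : 1 ≤ A := by rw [hA]; exact one_le_pow₀ (by norm_num)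
  have h2A : 2 * A ≤ N := by
    rw [hA, hN, ← pow_succ']
    exact pow_le_pow_right₀ (by norm_num) (by omega)
  have h1 : P ∣ N - 1 - A := ⟨q * (N - P) - (P - 1) * C * D - A, by linear_combination -hE⟩
  obtain ⟨x, hx⟩ := h1
  have hx1 : x = 1 := by
    have h2 : 0 < P * x := by rw [← hx]; linarith
    have h3 : P * x < P * 2 := by rw [← hx]; linarith
    have h4 : 0 < x := by
      by_contra hc
      have := mul_nonneg (by linarith : (0 : ℤ) ≤ P) (by linarith : (0 : ℤ) ≤ -x)
      linarith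
    have h5 : x < 2 := lt_of_mul_lt_mul_left h3 (by linarith)
    omega
  rw [hx1, mul_one] at hx
  have hNe : N = P + 1 + A := by linarith
  have h6 : (A + 1) * (q - 1) = (P - 1) * (C * D) := by
    have h7 : P * ((A + 1) * (q - 1)) = P * ((P - 1) * (C * D)) := by
      rw [hNe] at hE
      linear_combination hE
    exact mul_left_cancel₀ (by linarith) h7
  obtain ⟨s, hs⟩ : P - 1 ∣ q - 1 := by
    rw [hq]
    have := sub_dvd_pow_sub_pow P 1 (m - 1)
    rwa [one_pow] at this
  have h8 : (A + 1) * s = C * D := by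
    rw [hs] at h6
    have h9 : (P - 1) * ((A + 1) * s) = (P - 1) * (C * D) := by linear_combination h6
    exact mul_left_cancel₀ (by linarith) h9
  have hdvd : (2 ^ a + 1) ∣ 2 ^ c * p ^ d := by
    have h9 : ((2 ^ a + 1 : ℕ) : ℤ) ∣ ((2 ^ c * p ^ d : ℕ) : ℤ) := by
      push_cast
      rw [← hP, ← hA, ← hC, ← hD]
      exact ⟨s, h8.symm⟩
    exact_mod_cast h9
  have hpo : Odd p := hp.odd_of_ne_two (by omega)
  have ha0 : a ≠ 0 := by
    rintro rfl
    rw [pow_zero] at hA
    have h9 : (2 : ℤ) ^ (k + 1) = p + 1 + 1 := by rw [← hN, ← hP, hNe, hA]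
    have h10 : Even ((2 : ℤ) ^ (k + 1)) := (even_two).pow_of_ne_zero (by omega)
    obtain ⟨r, hr⟩ := hpo
    obtain ⟨t, ht⟩ := h10
    rw [h9, hr] at ht
    push_cast at ht
    omega
  have hcop2 : Nat.Coprime (2 ^ a + 1) (2 ^ c) := by
    apply Nat.Coprime.pow_right
    rw [Nat.coprime_two_right]
    exact (even_two.pow_of_ne_zero ha0).add_one
  have hlt : 2 ^ a + 1 < p := by
    have h9 : ((2 ^ a + 1 : ℕ) : ℤ) < p := by
      push_cast
      rw [← hP, ← hA]
      linarith
    exact_mod_cast h9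
  have hcopp : Nat.Coprime (2 ^ a + 1) (p ^ d) := by
    apply Nat.Coprime.pow_right
    exact (Nat.coprime_comm.1 ((Nat.Prime.coprime_iff_not_dvd hp).2 fun h =>
      absurd (Nat.le_of_dvd (by positivity) h) (not_le.2 hlt)))
  have h1' := Nat.Coprime.eq_one_of_dvd (hcop2.mul_right hcopp) hdvd
  have : 0 < 2 ^ a := by positivity
  omega

/-- `b = 1`, `d ≥ 2`, `N = p + 1`: then `m = 3` -/
theorem one_two {m p a c d : ℕ} (hp3 : 3 ≤ p) (hm : 3 ≤ m) (hA : (2 : ℤ) ^ a < p) (hC : (2 : ℤ) ^ c < p)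
    (hE : (p : ℤ) ^ (m - 1) - 1 = ((p : ℤ) - 1) * (2 ^ a + 2 ^ c * ((p : ℤ) ^ d * p))) : m = 3 := by
  obtain ⟨P, hP⟩ : ∃ P : ℤ, P = p := ⟨_, rfl⟩
  obtain ⟨A, hA'⟩ : ∃ A : ℤ, A = 2 ^ a := ⟨_, rfl⟩
  obtain ⟨C, hC'⟩ : ∃ C : ℤ, C = 2 ^ c := ⟨_, rfl⟩
  obtain ⟨n, rfl⟩ : ∃ n, m = n + 3 := ⟨m - 3, by omega⟩
  have e1 : n + 3 - 1 = n + 2 := by omega
  rw [e1] at hE
  obtain ⟨q, hq⟩ : ∃ q : ℤ, q = P ^ n := ⟨_, rfl⟩
  have hP3 : 3 ≤ P := by rw [hP]; exact_mod_cast hp3
  have hA1 : 1 ≤ A := by rw [hA']; exact one_le_pow₀ (by norm_num)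
  rw [← hA', ← hP] at hA
  rw [← hC', ← hP] at hC
  rw [← hA', ← hC', ← hP, pow_add, ← hq] at hE
  obtain ⟨x, hx⟩ : P ∣ A - 1 := ⟨A + (P - 1) * C * P ^ d - q * P, by linear_combination hE⟩
  have hx0 : x = 0 := by
    have h2 : 0 ≤ P * x := by rw [← hx]; linarith
    have h3 : P * x < P * 1 := by rw [← hx]; linarith
    have h5 : x < 1 := lt_of_mul_lt_mul_left h3 (by linarith)
    by_contra hne
    have h6 : x ≤ -1 := by omega
    have := mul_le_mul_of_nonneg_left h6 (by linarith : (0 : ℤ) ≤ P)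
    linarith
  rw [hx0, mul_zero] at hx
  have hA0 : A = 1 := by linarith
  rw [hA0] at hE
  have h4 : q * P - 1 = (P - 1) * C * P ^ d := by
    have h5 : P * (q * P - 1) = P * ((P - 1) * C * P ^ d) := by linear_combination hE
    exact mul_left_cancel₀ (by linarith) h5
  rcases Nat.eq_zero_or_pos d with hd | hd
  · rw [hd, pow_zero, mul_one] at h4
    rcases Nat.eq_zero_or_pos n with hn | hn
    · rw [hn]
    · exfalso
      have h6 : P ≤ q := by
        rw [hq]
        exact le_self_pow₀ (by linarith) (by omega)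
      have h7 : P * P ≤ q * P := mul_le_mul_of_nonneg_right h6 (by linarith)
      nlinarith
  · exfalso
    obtain ⟨e, rfl⟩ : ∃ e, d = e + 1 := ⟨d - 1, by omega⟩
    have h7 : P ∣ 1 := ⟨q - (P - 1) * C * P ^ e, by rw [pow_succ] at h4; linear_combination -h4⟩
    have := Int.le_of_dvd one_pos h7
    linarith

set_option maxHeartbeats 1000000 in
theorem t_CA : S_CA := by
  intro k m p a b c d hp hp3 hm ha hc hne hN h
  unfold Eqn at h
  obtain ⟨P, hP⟩ : ∃ P : ℤ, P = p := ⟨_, rfl⟩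
  obtain ⟨N, hNd⟩ : ∃ N : ℤ, N = 2 ^ (k + 1) := ⟨_, rfl⟩
  obtain ⟨A, hA⟩ : ∃ A : ℤ, A = 2 ^ a := ⟨_, rfl⟩
  obtain ⟨C, hC⟩ : ∃ C : ℤ, C = 2 ^ c := ⟨_, rfl⟩
  obtain ⟨q, hq⟩ : ∃ q : ℤ, q = P ^ (m - 1) := ⟨_, rfl⟩
  have hP3 : 3 ≤ P := by rw [hP]; exact_mod_cast hp3
  have hN2 : N < 2 * P := by rw [hP, hNd]; exact_mod_cast hN
  have hA1 : 1 ≤ A := by rw [hA]; exact one_le_pow₀ (by norm_num)
  have hC1 : 1 ≤ C := by rw [hC]; exact one_le_pow₀ (by norm_num)
  have h2A : 2 * A ≤ N := by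
    rw [hA, hNd, ← pow_succ']
    exact pow_le_pow_right₀ (by norm_num) (by omega)
  have h2C : 2 * C ≤ N := by
    rw [hC, hNd, ← pow_succ']
    exact pow_le_pow_right₀ (by norm_num) (by omega)
  have hqP : P * P ≤ q := by
    rw [hq, ← pow_two]
    exact pow_le_pow_right₀ (by linarith) (by omega)
  have em : P ^ m = P * q := by
    rw [hq, ← pow_succ']
    congr 1
    omega
  have em1 : P ^ (m + 1) = P * (P * q) := by rw [pow_succ', em]
  rw [← hP, ← hNd, ← hA, ← hC, em, em1] at h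
  have hE : P * q * (N - P) - (N - 1) = (P - 1) * (A * P ^ b + C * P ^ d) := by linear_combination h
  have hb0 : 0 < P ^ b := by positivity
  have hd0 : 0 < P ^ d := by positivity
  have hNP : P < N := by
    by_contra hcon
    have h1 : 0 ≤ P * q * (P - N) := by
      have : 0 ≤ q := by nlinarith
      exact mul_nonneg (mul_nonneg (by linarith) this) (by linarith)
    have h2 : 0 < (P - 1) * (A * P ^ b + C * P ^ d) := by
      apply mul_pos (by linarith)
      have := mul_pos (by linarith : 0 < A) hb0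
      have := mul_pos (by linarith : 0 < C) hd0
      linarith
    nlinarith
  rcases Nat.eq_zero_or_pos b with hb | hb
  · rcases Nat.eq_zero_or_pos d with hd | hd
    · exfalso
      rw [hb, hd, pow_zero, mul_one, mul_one] at hE
      have h1 : (P - 1) * (A + C) ≤ (P - 1) * N := mul_le_mul_of_nonneg_left (by linarith) (by linarith)
      have h2 : P * (P * P) * 1 ≤ P * q * (N - P) :=
        mul_le_mul (mul_le_mul_of_nonneg_left hqP (by linarith)) (by linarith) (by norm_num)
          (mul_nonneg (by linarith) (by nlinarith))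
      nlinarith
    · exfalso
      obtain ⟨e, rfl⟩ : ∃ e, d = e + 1 := ⟨d - 1, by omega⟩
      refine mixed (k := k) (m := m) (p := p) (a := a) (c := c) (d := e) hp hp3 ha
        (by rw [← hP, ← hNd]; exact hN2) (by rw [← hP, ← hNd]; exact hNP) ?_
      rw [← hP, ← hNd, ← hA, ← hC, ← hq]
      rw [hb, pow_zero, mul_one, pow_succ] at hE
      exact hE
  · obtain ⟨b, rfl⟩ : ∃ e, b = e + 1 := ⟨b - 1, by omega⟩
    rcases Nat.eq_zero_or_pos d with hd | hd
    · exfalso
      refine mixed (k := k) (m := m) (p := p) (a := c) (c := a) (d := b) hp hp3 hc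
        (by rw [← hP, ← hNd]; exact hN2) (by rw [← hP, ← hNd]; exact hNP) ?_
      rw [← hP, ← hNd, ← hA, ← hC, ← hq]
      rw [hd, pow_zero, mul_one, pow_succ] at hE
      linear_combination hE
    · obtain ⟨d, rfl⟩ : ∃ e, d = e + 1 := ⟨d - 1, by omega⟩
      rw [pow_succ, pow_succ] at hE
      obtain ⟨x, hx⟩ : P ∣ N - 1 :=
        ⟨q * (N - P) - (P - 1) * (A * P ^ b + C * P ^ d), by linear_combination -hE⟩
      have hx1 : x = 1 := by
        have h2 : 0 < P * x := by rw [← hx]; linarith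
        have h3 : P * x < P * 2 := by rw [← hx]; linarith
        have h4 : 0 < x := by
          by_contra hcon
          have := mul_nonneg (by linarith : (0 : ℤ) ≤ P) (by linarith : (0 : ℤ) ≤ -x)
          linarith
        have h5 : x < 2 := lt_of_mul_lt_mul_left h3 (by linarith)
        omega
      rw [hx1, mul_one] at hx
      have hNe : N = P + 1 := by linarith
      have hres : p + 1 = 2 ^ (k + 1) := by
        have h1 : ((p + 1 : ℕ) : ℤ) = ((2 ^ (k + 1) : ℕ) : ℤ) := by
          push_cast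
          rw [← hP, ← hNd]
          linarith
        exact_mod_cast h1
      refine ⟨?_, hres⟩
      have hE2 : q - 1 = (P - 1) * (A * P ^ b + C * P ^ d) := by
        have h1 : P * (q - 1) = P * ((P - 1) * (A * P ^ b + C * P ^ d)) := by
          rw [hNe] at hE
          linear_combination hE
        exact mul_left_cancel₀ (by linarith) h1
      have hAP : (2 : ℤ) ^ a < p := by rw [← hA, ← hP]; linarith
      have hCP : (2 : ℤ) ^ c < p := by rw [← hC, ← hP]; linarith
      rcases Nat.eq_zero_or_pos b with hb' | hb'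
      · rcases Nat.eq_zero_or_pos d with hd' | hd'
        · exfalso
          rw [hb', hd', pow_zero, mul_one, mul_one] at hE2
          have hac : a ≠ c := by
            rintro rfl
            exact hne (by rw [hb', hd'])
          have h3 : A + C < N := by
            rcases lt_or_gt_of_ne hac with hlt | hlt
            · have : 2 * A ≤ C := by
                rw [hA, hC, ← pow_succ']
                exact pow_le_pow_right₀ (by norm_num) (by omega)
              linarith
            · have : 2 * C ≤ A := by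
                rw [hA, hC, ← pow_succ']
                exact pow_le_pow_right₀ (by norm_num) (by omega)
              linarith
          have h4 : (P - 1) * (A + C) ≤ (P - 1) * P := mul_le_mul_of_nonneg_left (by linarith) (by linarith)
          have h5 : (P - 1) * P = P * P - P := by ring
          linarith
        · obtain ⟨e, rfl⟩ : ∃ e, d = e + 1 := ⟨d - 1, by omega⟩
          refine one_two (a := a) (c := c) (d := e) hp3 hm hAP hCP ?_
          rw [← hP, ← hA, ← hC, ← hq]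
          rw [hb', pow_zero, mul_one, pow_succ] at hE2
          exact hE2
      · obtain ⟨b, rfl⟩ : ∃ e, b = e + 1 := ⟨b - 1, by omega⟩
        rcases Nat.eq_zero_or_pos d with hd' | hd'
        · refine one_two (a := c) (c := a) (d := b) hp3 hm hCP hAP ?_
          rw [← hP, ← hA, ← hC, ← hq]
          rw [hd', pow_zero, mul_one, pow_succ] at hE2
          linear_combination hE2
        · exfalso
          obtain ⟨d, rfl⟩ : ∃ e, d = e + 1 := ⟨d - 1, by omega⟩
          have hPq : P ∣ q := by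
            rw [hq]
            exact dvd_pow_self P (by omega)
          obtain ⟨r, hr⟩ := hPq
          have h7 : P ∣ 1 := ⟨r - (P - 1) * (A * P ^ b + C * P ^ d), by
            rw [pow_succ, pow_succ, hr] at hE2
            linear_combination -hE2⟩
          have := Int.le_of_dvd one_pos h7
          linarith

end Pool.Agent.V5helper38.NP
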